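import Mathlib
import Pool.Agent.H.MP_e3a8c8_an.F

set_option autoImplicit false
open scoped ComplexOrder
open Pool.Agent.H.MP_e3a8c8_an

namespace Pool.Agent.Results.MP_e3a8c8_an.Answer

theorem result :
    (∀ (X : Type) (k l : Matrix X X ℂ), k.PosSemidef → l.PosSemidef → (∀ x, l x x ≠ 0) →
      CPpair k l → HasCert k l) ∧
    (∃ k l : Matrix (Fin 3) (Fin 3) ℂ, k.PosSemidef ∧ l.PosSemidef ∧ (∀ x, k x x ≠ 0) ∧
      CPpair k l ∧ ¬ HasCert k l) :=
  ⟨fun _ _ _ hk hl h0 h => cert_of_cp hk hl h0 h,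
    k0, l0, k0_psd, l0_psd, fun x => by fin_cases x <;> simp [k0], cp0, nocert⟩

end Pool.Agent.Results.MP_e3a8c8_an.Answer
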